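import Pool.Agent.TH426.Pw.Main
import Pool.Agent.TH426.Pw.PiE

/-!
# `π` and the powers `n ^ π`, `n ^ e`, … for almost all integers `n`

Let `θ_1, …, θ_k` be real numbers such that no combination `m_1 θ_1 + … + m_k θ_k` with integers
`m_i`, `|m_i| ≤ d`, not all zero, is an integer. Let `0 < a < b`, `r ≥ 1`, `A ≥ 0` and
`β > 1 - 1 / ((d + 1) ^ (k r + 1) + 1)`. There are `B` and `C` such that for all `N ≥ 1`, for all but
at most `C N ^ (r - 1 + β)` of the `r`-tuples `u` of integers in `[a N, b N]`, every nonzero integer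
polynomial `P` of degree at most `d` in each variable and with coefficients at most `N ^ A` satisfies
`|P (π, u_j ^ θ_i)| > N ^ (-B)`.

Examples: `θ_i = t ^ i` with `t` transcendental (`t = π` or `t = e`), all `d`;
`(θ_1, θ_2) = (π, e)`, `d ≤ 100`.
-/

set_option autoImplicit false

namespace Pool.Agent.Results.MP_ee2255_nt.AlmostAllBases

/-- The number `π` and the numbers `u_j ^ θ_i`. -/
noncomputable def values {k r : ℕ} (θ : Fin k → ℝ) (u : Fin r → ℕ) (s : Option (Fin r × Fin k)) : ℝ :=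
  match s with
  | none => Real.pi
  | some y => (u y.1 : ℝ) ^ θ y.2

/-- The `r`-tuples `u` of integers in `[a N, b N]` for which there is a nonzero polynomial with integer
coefficients, of degree at most `d` in each variable, with coefficients of absolute value at most `N ^ A`, whose
value at the point `(π, u_j ^ θ_i)` has absolute value at most `N ^ (-B)`. -/
def Exceptional {k : ℕ} (r d : ℕ) (θ : Fin k → ℝ) (a b A B : ℝ) (N : ℕ) : Set (Fin r → ℕ) :=
  {u | (∀ j, a * N ≤ u j ∧ (u j : ℝ) ≤ b * N) ∧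
    ∃ P : MvPolynomial (Option (Fin r × Fin k)) ℤ, P ≠ 0 ∧ (∀ s, P.degreeOf s ≤ d) ∧
      (∀ m, |((P.coeff m : ℤ) : ℝ)| ≤ (N : ℝ) ^ A) ∧
      |MvPolynomial.aeval (values θ u) P| ≤ (N : ℝ) ^ (-B)}

/-- There are few exceptional tuples, for all `r ≥ 1`, all intervals and all `A`. -/
def AlmostAll {k : ℕ} (d : ℕ) (θ : Fin k → ℝ) : Prop :=
  ∀ (r : ℕ) (a b A β : ℝ), 1 ≤ r → 0 < a → a < b → 0 ≤ A →
    1 - 1 / (((d : ℝ) + 1) ^ (k * r + 1) + 1) < β →
    ∃ B C : ℝ, ∀ N : ℕ, 1 ≤ N → (Exceptional r d θ a b A B N).Finite ∧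
      ((Exceptional r d θ a b A B N).ncard : ℝ) ≤ C * (N : ℝ) ^ ((r : ℝ) - 1 + β)

/-- no nontrivial relation between the powers of a transcendental number -/
theorem tr_powers (t : ℝ) (ht : Transcendental ℚ t) (k : ℕ) (m : Fin k → ℤ) (z : ℤ)
    (h : ∑ i, (m i : ℝ) * t ^ ((i : ℕ) + 1) = z) : m = 0 := by
  classical
  have h0 := transcendental_iff.1 ht
    (∑ i : Fin k, Polynomial.C ((m i : ℤ) : ℚ) * Polynomial.X ^ ((i : ℕ) + 1) - Polynomial.C ((z : ℤ) : ℚ)) (by
      simp only [map_sub, map_sum, map_mul, map_pow, Polynomial.aeval_X, Polynomial.aeval_C]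
      simp only [eq_ratCast, Rat.cast_intCast]
      rw [h, sub_self])
  funext i
  have h1 := congrArg (fun p => Polynomial.coeff p ((i : ℕ) + 1)) h0
  simp only [Polynomial.coeff_sub, Polynomial.finsetSum_coeff, Polynomial.coeff_C_mul, Polynomial.coeff_X_pow,
    Polynomial.coeff_C_succ, sub_zero, Polynomial.coeff_zero, add_left_inj, mul_ite, mul_one, mul_zero] at h1
  rw [Finset.sum_eq_single i (fun j _ hj => if_neg fun hij => hj (Fin.ext hij.symm))
    (fun hi => absurd (Finset.mem_univ i) hi), if_pos rfl] at h1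
  exact_mod_cast h1

theorem values_eq {k r : ℕ} (θ : Fin k → ℝ) (u : Fin r → ℕ) : values θ u = Pool.Agent.TH426.Pw.vals θ u := by
  funext s
  cases s <;> rfl

theorem exceptional_eq {k : ℕ} (r d : ℕ) (θ : Fin k → ℝ) (a b A B : ℝ) (N : ℕ) :
    Exceptional r d θ a b A B N = Pool.Agent.TH426.Pw.Exc r d θ a b A B N := by
  unfold Exceptional Pool.Agent.TH426.Pw.Exc
  simp only [values_eq]

/-- The general theorem and the examples. -/
theorem result :
    (∀ (k d : ℕ) (θ : Fin k → ℝ),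
      (∀ (m : Fin k → ℤ) (z : ℤ), (∀ i, |m i| ≤ d) → ∑ i, (m i : ℝ) * θ i = z → m = 0) →
      AlmostAll d θ) ∧
    (∀ t : ℝ, Transcendental ℚ t → ∀ k d : ℕ, AlmostAll d (fun i : Fin k => t ^ ((i : ℕ) + 1))) ∧
    (∀ d : ℕ, d ≤ 100 → AlmostAll d ![Real.pi, Real.exp 1]) := by
  have hA : ∀ (k d : ℕ) (θ : Fin k → ℝ),
      (∀ (m : Fin k → ℤ) (z : ℤ), (∀ i, |m i| ≤ d) → ∑ i, (m i : ℝ) * θ i = z → m = 0) →
      AlmostAll d θ := by
    intro k d θ hθ r a b A β hr ha hab hA hβ
    simp only [exceptional_eq]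
    exact Pool.Agent.TH426.Pw.main k r d hr θ hθ a b ha hab A β hA hβ
  refine ⟨hA, ?_, ?_⟩
  · intro t ht k d
    exact hA k d _ fun m z _ h => tr_powers t ht k m z h
  · intro d hd
    refine hA 2 d _ fun m z hm h => ?_
    have hd' : (d : ℤ) ≤ 100 := by exact_mod_cast hd
    simp only [Fin.sum_univ_two, Matrix.cons_val_zero, Matrix.cons_val_one] at h
    have h1 := Pool.Agent.TH426.Pw.pi_e (m 0) (m 1) z ((hm 0).trans hd') ((hm 1).trans hd') h
    funext i
    fin_cases i
    · exact h1.1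
    · exact h1.2

end Pool.Agent.Results.MP_ee2255_nt.AlmostAllBases
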