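import Pool.Agent.TH675.FB.Rank

/-!
# Few integers `n` have an algebraic power `n ^ π`, `n ^ e`, `n ^ Q(π)`, `n ^ Q(e)`, ...

Let `𝓛` be the space of all linear combinations, with algebraic coefficients, of `1` and of
logarithms of algebraic numbers.

(A) Let `P` be a finite dimensional space of complex numbers over the algebraic numbers, `1 ∈ P`,
`δ = dim P`, `ρ = dim (P ∩ 𝓛)`. Let `l_1, ..., l_r` be logarithms of algebraic numbers, linearly
independent over `ℚ`, such that for each `j` there is a transcendental `z_j ∈ P` with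
`z_j l_j ∈ 𝓛` (the `z_j` may be different). Then `r ≤ δ (δ - 1) + 1 - ρ`.

(B) Hence at most `(log₂ N + 1) ^ (δ (δ - 1) + 1 - ρ)` integers `2 ≤ n ≤ N` have an algebraic power
`n ^ z` with a transcendental exponent `z ∈ P`.

(C) `P` = polynomials in `π` of degree at most `D`: at most `(log₂ N + 1) ^ (D ^ 2 + D - 1)` integers
`2 ≤ n ≤ N` have an algebraic power `n ^ Q(π)` with a nonconstant polynomial `Q` of degree at most
`D` with algebraic coefficients. For `e` instead of `π` the exponent is `D ^ 2 + D`. For exponents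
`α + β π + γ e` it is `5`.

(D) There is an integer `g ≥ 2` such that `n ^ (α + β π)` is transcendental for all algebraic `α`,
all algebraic `β ≠ 0` and all integers `n ≥ 2` which are not powers of `g`.

(E) For all but at most `(log₂ N + 1) ^ 2 + log₂ N + 1` of the integers `2 ≤ n ≤ N`, both `n ^ π`
and `n ^ e` are transcendental.
-/

set_option autoImplicit false

namespace Pool.Agent.Results.MP_ee2255_nt.FewBases

open Module Polynomial
open Pool.Agent.H301R2.SSE (QB mem_QB Lt Lt_mul Lt_alg Lt_log Lt_one)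
open Pool.Agent.TH577.PP
open Pool.Agent.TH675.FB

/-- The linear forms in `1` and logarithms of algebraic numbers, with algebraic coefficients. -/
noncomputable def LogForms : Submodule (algebraicClosure ℚ ℂ) ℂ :=
  Submodule.span (algebraicClosure ℚ ℂ) ({1} ∪ {z : ℂ | IsAlgebraic ℚ (Complex.exp z)})

/-- The set of all integers `2 ≤ n ≤ N` for which `n ^ z` is algebraic for at least one exponent
`z` in the set `E`. -/
def Bases (E : Set ℂ) (N : ℕ) : Set ℕ :=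
  {n : ℕ | 2 ≤ n ∧ n ≤ N ∧ ∃ z ∈ E, IsAlgebraic ℚ ((n : ℂ) ^ z)}

/-- The values at `t` of the nonconstant polynomials of degree at most `D` with algebraic
coefficients. -/
def PolynomialExponents (t : ℂ) (D : ℕ) : Set ℂ :=
  {z | ∃ Q : (algebraicClosure ℚ ℂ)[X], 1 ≤ Q.natDegree ∧ Q.natDegree ≤ D ∧ z = aeval t Q}

/-- (A) -/
def IndependentLogs : Prop :=
  ∀ (P : Submodule (algebraicClosure ℚ ℂ) ℂ), FiniteDimensional (algebraicClosure ℚ ℂ) P →
    (1 : ℂ) ∈ P → ∀ (r : ℕ) (l z : Fin r → ℂ), (∀ j, IsAlgebraic ℚ (Complex.exp (l j))) →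
    LinearIndependent ℚ l → (∀ j, z j ∈ P ∧ Transcendental ℚ (z j) ∧ z j * l j ∈ LogForms) →
    r + finrank (algebraicClosure ℚ ℂ) (P ⊓ LogForms : Submodule (algebraicClosure ℚ ℂ) ℂ) ≤
      finrank (algebraicClosure ℚ ℂ) P * (finrank (algebraicClosure ℚ ℂ) P - 1) + 1

/-- (B) -/
def ManyExponents : Prop :=
  ∀ (P : Submodule (algebraicClosure ℚ ℂ) ℂ), FiniteDimensional (algebraicClosure ℚ ℂ) P →
    (1 : ℂ) ∈ P → ∀ N : ℕ, (Bases {z | z ∈ P ∧ Transcendental ℚ z} N).ncard ≤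
      (Nat.log 2 N + 1) ^
        (finrank (algebraicClosure ℚ ℂ) P * (finrank (algebraicClosure ℚ ℂ) P - 1) + 1 -
          finrank (algebraicClosure ℚ ℂ) (P ⊓ LogForms : Submodule (algebraicClosure ℚ ℂ) ℂ))

/-- (C) -/
def PolynomialsInPiAndE : Prop :=
  (∀ D N : ℕ, 1 ≤ D →
    (Bases (PolynomialExponents (Real.pi : ℂ) D) N).ncard ≤ (Nat.log 2 N + 1) ^ (D ^ 2 + D - 1)) ∧
  (∀ D N : ℕ, 1 ≤ D →
    (Bases (PolynomialExponents (Real.exp 1 : ℂ) D) N).ncard ≤ (Nat.log 2 N + 1) ^ (D ^ 2 + D)) ∧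
  (∀ N : ℕ, (Bases {z | Transcendental ℚ z ∧ ∃ α β γ : ℂ, IsAlgebraic ℚ α ∧ IsAlgebraic ℚ β ∧
    IsAlgebraic ℚ γ ∧ z = α + β * (Real.pi : ℂ) + γ * (Real.exp 1 : ℂ)} N).ncard ≤
      (Nat.log 2 N + 1) ^ 5)

/-- (D) -/
def OneBase : Prop :=
  ∃ g : ℕ, 2 ≤ g ∧ ∀ n : ℕ, 2 ≤ n → (∀ k : ℕ, n ≠ g ^ k) → ∀ α β : ℂ, IsAlgebraic ℚ α →
    IsAlgebraic ℚ β → β ≠ 0 → Transcendental ℚ ((n : ℂ) ^ (α + β * (Real.pi : ℂ)))

/-- (E) -/
def BothPowers : Prop :=
  ∀ N : ℕ, {n : ℕ | 2 ≤ n ∧ n ≤ N ∧ ¬ (Transcendental ℚ ((n : ℝ) ^ Real.pi) ∧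
    Transcendental ℚ ((n : ℝ) ^ Real.exp 1))}.ncard ≤ (Nat.log 2 N + 1) ^ 2 + Nat.log 2 N + 1

theorem part_A : IndependentLogs := by
  intro P _ h1 r l z hl hli hz
  exact rank_bound P h1 l hl hli z (fun j => (hz j).1) (fun j => (hz j).2.1) (fun j => (hz j).2.2)

theorem bases_finite (E : Set ℂ) (N : ℕ) : (Bases E N).Finite :=
  (Set.finite_Icc 2 N).subset fun _ hn => ⟨hn.1, hn.2.1⟩

theorem bases_mono {E F : Set ℂ} (h : E ⊆ F) (N : ℕ) : (Bases E N).ncard ≤ (Bases F N).ncard := by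
  apply Set.ncard_le_ncard _ (bases_finite F N)
  rintro n ⟨h1, h2, z, hz, h3⟩
  exact ⟨h1, h2, z, h hz, h3⟩

theorem bases_le (P : Submodule (algebraicClosure ℚ ℂ) ℂ)
    [FiniteDimensional (algebraicClosure ℚ ℂ) P] (h1 : (1 : ℂ) ∈ P) (N e : ℕ)
    (he : finrank (algebraicClosure ℚ ℂ) P * (finrank (algebraicClosure ℚ ℂ) P - 1) + 1 ≤
      e + finrank (algebraicClosure ℚ ℂ)
        (P ⊓ LogForms : Submodule (algebraicClosure ℚ ℂ) ℂ)) :
    (Bases {z | z ∈ P ∧ Transcendental ℚ z} N).ncard ≤ (Nat.log 2 N + 1) ^ e := by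
  have h := main_count P h1 N e he
  have e1 : Bases {z | z ∈ P ∧ Transcendental ℚ z} N = {n : ℕ | 2 ≤ n ∧ n ≤ N ∧ ∃ z ∈ P,
      Transcendental ℚ z ∧ IsAlgebraic ℚ ((n : ℂ) ^ z)} := by
    ext n
    constructor
    · rintro ⟨h1, h2, z, ⟨h3, h4⟩, h5⟩
      exact ⟨h1, h2, z, h3, h4, h5⟩
    · rintro ⟨h1, h2, z, h3, h4, h5⟩
      exact ⟨h1, h2, z, ⟨h3, h4⟩, h5⟩
  rw [e1]
  exact h

theorem part_B : ManyExponents := by
  intro P _ h1 N
  apply bases_le P h1
  omega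

theorem poly_tr {t : ℂ} (ht : Transcendental ℚ t) {Q : (algebraicClosure ℚ ℂ)[X]}
    (hQ : 1 ≤ Q.natDegree) : Transcendental ℚ (aeval t Q) := by
  have h0 : Q ≠ 0 := by
    rintro rfl
    simp at hQ
  have h1 : Transcendental (algebraicClosure ℚ ℂ) (aeval t Q) :=
    (tr_QB ht).aeval Q (by omega) (mem_nonZeroDivisors_of_ne_zero (leadingCoeff_ne_zero.mpr h0))
  intro h2
  exact h1 (h2.tower_top _)

theorem poly_subset {t : ℂ} (ht : Transcendental ℚ t) (D : ℕ) :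
    PolynomialExponents t D ⊆ {z | z ∈ PD t D ∧ Transcendental ℚ z} := by
  rintro z ⟨Q, h1, h2, rfl⟩
  exact ⟨mem_PD t h2, poly_tr ht h1⟩

theorem mul_pred_le {δ k : ℕ} (h : δ ≤ k + 1) : δ * (δ - 1) ≤ (k + 1) * k :=
  Nat.mul_le_mul h (by omega)

theorem mul_pred_PD (t : ℂ) (D : ℕ) : finrank (algebraicClosure ℚ ℂ) (PD t D) *
    (finrank (algebraicClosure ℚ ℂ) (PD t D) - 1) ≤ D ^ 2 + D := by
  have h := mul_pred_le (finrank_PD_le t D)
  have h3 : (D + 1) * D = D ^ 2 + D := by ring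
  rwa [h3] at h

theorem part_C1 (D N : ℕ) (hD : 1 ≤ D) :
    (Bases (PolynomialExponents (Real.pi : ℂ) D) N).ncard ≤
      (Nat.log 2 N + 1) ^ (D ^ 2 + D - 1) := by
  refine (bases_mono (poly_subset pi_tr D) N).trans (bases_le _ (one_mem_PD _ _) N _ ?_)
  have h1 := mul_pred_PD (Real.pi : ℂ) D
  have h2 : 2 ≤ finrank (algebraicClosure ℚ ℂ)
      (PD (Real.pi : ℂ) D ⊓ LogForms : Submodule (algebraicClosure ℚ ℂ) ℂ) :=
    two_le pi_tr pi_mem_Lt hD
  have h4 : 1 ≤ D ^ 2 := Nat.one_le_pow _ _ hD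
  omega

/-- `1` is in the intersection -/
theorem one_le_rank (P : Submodule (algebraicClosure ℚ ℂ) ℂ)
    [FiniteDimensional (algebraicClosure ℚ ℂ) P] (h1 : (1 : ℂ) ∈ P) :
    1 ≤ finrank (algebraicClosure ℚ ℂ) (P ⊓ LogForms : Submodule (algebraicClosure ℚ ℂ) ℂ) := by
  have : FiniteDimensional (algebraicClosure ℚ ℂ)
      (P ⊓ LogForms : Submodule (algebraicClosure ℚ ℂ) ℂ) :=
    Submodule.finiteDimensional_inf_left _ _
  have h2 : (⟨1, h1, Lt_one⟩ : (P ⊓ LogForms : Submodule (algebraicClosure ℚ ℂ) ℂ)) ≠ 0 := by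
    intro h
    have := congrArg (fun y : (P ⊓ LogForms : Submodule (algebraicClosure ℚ ℂ) ℂ) => (y : ℂ)) h
    simp at this
  exact Module.finrank_pos_iff_exists_ne_zero.mpr ⟨_, h2⟩

theorem e_tr : Transcendental ℚ ((Real.exp 1 : ℝ) : ℂ) := by
  have h := Pool.Agent.H340R2.LW.transcendental_exp_one_complex
  have e : ((Real.exp 1 : ℝ) : ℂ) = Complex.exp 1 := by push_cast; rfl
  rwa [e]

theorem part_C2 (D N : ℕ) :
    (Bases (PolynomialExponents (Real.exp 1 : ℂ) D) N).ncard ≤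
      (Nat.log 2 N + 1) ^ (D ^ 2 + D) := by
  refine (bases_mono (poly_subset e_tr D) N).trans (bases_le _ (one_mem_PD _ _) N _ ?_)
  have h1 := mul_pred_PD ((Real.exp 1 : ℝ) : ℂ) D
  have h2 := one_le_rank (PD ((Real.exp 1 : ℝ) : ℂ) D) (one_mem_PD _ _)
  omega

/-- the space spanned by `1`, `π`, `e` -/
noncomputable def P3 : Submodule (algebraicClosure ℚ ℂ) ℂ :=
  Submodule.span (algebraicClosure ℚ ℂ) (Set.range ![1, (Real.pi : ℂ), ((Real.exp 1 : ℝ) : ℂ)])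

noncomputable instance : FiniteDimensional (algebraicClosure ℚ ℂ) P3 :=
  FiniteDimensional.span_of_finite _ (Set.finite_range _)

theorem P3_le : finrank (algebraicClosure ℚ ℂ) P3 ≤ 2 + 1 := by
  refine (finrank_range_le_card (R := algebraicClosure ℚ ℂ)
    ![1, (Real.pi : ℂ), ((Real.exp 1 : ℝ) : ℂ)]).trans ?_
  simp

theorem PD_le_P3 : PD (Real.pi : ℂ) 1 ≤ P3 := by
  rintro z ⟨p, hp, rfl⟩
  rw [SetLike.mem_coe, mem_degreeLT] at hp
  have h1 : p.natDegree ≤ 1 := by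
    by_cases h0 : p = 0
    · simp [h0]
    · rw [degree_eq_natDegree h0] at hp
      have : p.natDegree < 1 + 1 := by exact_mod_cast hp
      omega
  obtain ⟨a, b, rfl⟩ := exists_eq_X_add_C_of_natDegree_le_one h1
  have e : (aeval (Real.pi : ℂ)).toLinearMap (C a * X + C b) =
      a • (Real.pi : ℂ) + b • (1 : ℂ) := by
    simp [Algebra.smul_def]
  rw [e]
  refine P3.add_mem (P3.smul_mem _ (Submodule.subset_span ⟨1, rfl⟩))
    (P3.smul_mem _ (Submodule.subset_span ⟨0, rfl⟩))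

theorem part_C3 (N : ℕ) : (Bases {z | Transcendental ℚ z ∧ ∃ α β γ : ℂ, IsAlgebraic ℚ α ∧
    IsAlgebraic ℚ β ∧ IsAlgebraic ℚ γ ∧ z = α + β * (Real.pi : ℂ) + γ * (Real.exp 1 : ℂ)}
      N).ncard ≤ (Nat.log 2 N + 1) ^ 5 := by
  have hsub : {z | Transcendental ℚ z ∧ ∃ α β γ : ℂ, IsAlgebraic ℚ α ∧ IsAlgebraic ℚ β ∧
      IsAlgebraic ℚ γ ∧ z = α + β * (Real.pi : ℂ) + γ * (Real.exp 1 : ℂ)} ⊆
      {z | z ∈ P3 ∧ Transcendental ℚ z} := by
    rintro z ⟨hz, α, β, γ, h1, h2, h3, rfl⟩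
    refine ⟨?_, hz⟩
    have e : α + β * (Real.pi : ℂ) + γ * ((Real.exp 1 : ℝ) : ℂ) =
        (⟨α, mem_QB.mpr h1⟩ : algebraicClosure ℚ ℂ) • (1 : ℂ) +
        (⟨β, mem_QB.mpr h2⟩ : algebraicClosure ℚ ℂ) • (Real.pi : ℂ) +
        (⟨γ, mem_QB.mpr h3⟩ : algebraicClosure ℚ ℂ) • ((Real.exp 1 : ℝ) : ℂ) := by
      simp only [Algebra.smul_def, IntermediateField.algebraMap_apply, mul_one]
    rw [e]
    refine P3.add_mem (P3.add_mem (P3.smul_mem _ (Submodule.subset_span ⟨0, rfl⟩))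
      (P3.smul_mem _ (Submodule.subset_span ⟨1, rfl⟩)))
      (P3.smul_mem _ (Submodule.subset_span ⟨2, rfl⟩))
  refine (bases_mono hsub N).trans (bases_le P3 (Submodule.subset_span ⟨0, rfl⟩) N _ ?_)
  have h1 := mul_pred_le P3_le
  have h2 : 2 ≤ finrank (algebraicClosure ℚ ℂ)
      (PD (Real.pi : ℂ) 1 ⊓ LogForms : Submodule (algebraicClosure ℚ ℂ) ℂ) :=
    two_le pi_tr pi_mem_Lt le_rfl
  have : FiniteDimensional (algebraicClosure ℚ ℂ)
      (P3 ⊓ LogForms : Submodule (algebraicClosure ℚ ℂ) ℂ) :=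
    Submodule.finiteDimensional_inf_left _ _
  have h3 : finrank (algebraicClosure ℚ ℂ)
      (PD (Real.pi : ℂ) 1 ⊓ LogForms : Submodule (algebraicClosure ℚ ℂ) ℂ) ≤
      finrank (algebraicClosure ℚ ℂ) (P3 ⊓ LogForms : Submodule (algebraicClosure ℚ ℂ) ℂ) :=
    Submodule.finrank_mono (inf_le_inf_right _ PD_le_P3)
  omega

/-- two integers with dependent logarithms -/
theorem dep_pair {m n : ℕ} (hm : 2 ≤ m) (hn : 2 ≤ n)
    (h : ¬ LinearIndependent ℚ ![Real.log m, Real.log n]) :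
    ∃ a b : ℕ, 1 ≤ a ∧ 1 ≤ b ∧ m ^ a = n ^ b := by
  rw [← LinearIndependent.iff_fractionRing (R := ℤ) (K := ℚ), LinearIndependent.pair_iff] at h
  push Not at h
  obtain ⟨x, y, hxy, hne⟩ := h
  simp only [zsmul_eq_mul] at hxy
  have hlm : 0 < Real.log m := Real.log_pos (by exact_mod_cast hm)
  have hln : 0 < Real.log n := Real.log_pos (by exact_mod_cast hn)
  have key : ∀ a b : ℕ, (a : ℝ) * Real.log m = b * Real.log n → m ^ a = n ^ b := by
    intro a b hab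
    rw [← Real.log_pow, ← Real.log_pow] at hab
    have h2 := Real.log_injOn_pos (Set.mem_Ioi.2 (by positivity)) (Set.mem_Ioi.2 (by positivity))
      hab
    exact_mod_cast h2
  have hx0 : x ≠ 0 := by
    intro hx
    apply hne hx
    rw [hx, Int.cast_zero, zero_mul, zero_add] at hxy
    rcases mul_eq_zero.mp hxy with h | h
    · exact_mod_cast h
    · exact absurd h hln.ne'
  rcases lt_or_gt_of_ne hx0 with hx | hx
  · -- x < 0, y > 0
    have hy : 0 < y := by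
      by_contra hcon
      have h1 : (y : ℝ) * Real.log n ≤ 0 :=
        mul_nonpos_of_nonpos_of_nonneg (by exact_mod_cast not_lt.mp hcon) hln.le
      have h2 : (x : ℝ) * Real.log m < 0 := mul_neg_of_neg_of_pos (by exact_mod_cast hx) hlm
      linarith
    refine ⟨(-x).toNat, y.toNat, by omega, by omega, key _ _ ?_⟩
    have e1 : (((-x).toNat : ℕ) : ℝ) = -(x : ℝ) := by
      have : (((-x).toNat : ℕ) : ℤ) = -x := Int.toNat_of_nonneg (by omega)
      exact_mod_cast this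
    have e2 : ((y.toNat : ℕ) : ℝ) = (y : ℝ) := by
      have : ((y.toNat : ℕ) : ℤ) = y := Int.toNat_of_nonneg (by omega)
      exact_mod_cast this
    rw [e1, e2]
    linarith
  · have hy : y < 0 := by
      by_contra hcon
      have h1 : 0 ≤ (y : ℝ) * Real.log n :=
        mul_nonneg (by exact_mod_cast not_lt.mp hcon) hln.le
      have h2 : 0 < (x : ℝ) * Real.log m := mul_pos (by exact_mod_cast hx) hlm
      linarith
    refine ⟨x.toNat, (-y).toNat, by omega, by omega, key _ _ ?_⟩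
    have e1 : ((x.toNat : ℕ) : ℝ) = (x : ℝ) := by
      have : ((x.toNat : ℕ) : ℤ) = x := Int.toNat_of_nonneg (by omega)
      exact_mod_cast this
    have e2 : (((-y).toNat : ℕ) : ℝ) = -(y : ℝ) := by
      have : (((-y).toNat : ℕ) : ℤ) = -y := Int.toNat_of_nonneg (by omega)
      exact_mod_cast this
    rw [e1, e2]
    linarith

theorem log_cast (n : ℕ) : ((Real.log n : ℝ) : ℂ) = Complex.log n := by
  rw [Complex.ofReal_log (Nat.cast_nonneg _), Complex.ofReal_natCast]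

theorem part_D : OneBase := by
  obtain ⟨g, hg, hg2⟩ := one_base (fun n => 2 ≤ n ∧ ∃ z ∈ PD (Real.pi : ℂ) 1, Transcendental ℚ z ∧
    IsAlgebraic ℚ ((n : ℂ) ^ z)) (fun n hn => hn.1) (by
      rintro m n ⟨hm, z, hz1, hz2, hz3⟩ ⟨hn, w, hw1, hw2, hw3⟩
      apply dep_pair hm hn
      intro hli
      have hf : ∀ i, 2 ≤ (![m, n] : Fin 2 → ℕ) i := by
        intro i; fin_cases i
        · exact hm
        · exact hn
      have hlog : (fun i => ((Real.log ((![m, n] : Fin 2 → ℕ) i) : ℝ) : ℂ)) =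
          (algebraMap ℝ ℂ) ∘ ![Real.log m, Real.log n] := by
        funext i; fin_cases i <;> rfl
      have hli2 : LinearIndependent ℚ fun i =>
          ((Real.log ((![m, n] : Fin 2 → ℕ) i) : ℝ) : ℂ) := by
        rw [hlog]
        exact hli.map' ((IsScalarTower.toAlgHom ℚ ℝ ℂ).toLinearMap) (by
          rw [LinearMap.ker_eq_bot]
          exact Complex.ofReal_injective)
      have hne : ∀ i, (((![m, n] : Fin 2 → ℕ) i : ℕ) : ℂ) ≠ 0 := fun i => by
        have := hf i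
        exact_mod_cast (by omega : (![m, n] : Fin 2 → ℕ) i ≠ 0)
      have hzz : ∀ i, (![z, w] : Fin 2 → ℂ) i ∈ PD (Real.pi : ℂ) 1 ∧
          Transcendental ℚ ((![z, w] : Fin 2 → ℂ) i) ∧
          IsAlgebraic ℚ ((((![m, n] : Fin 2 → ℕ) i : ℕ) : ℂ) ^ ((![z, w] : Fin 2 → ℂ) i)) := by
        intro i; fin_cases i
        · exact ⟨hz1, hz2, hz3⟩
        · exact ⟨hw1, hw2, hw3⟩
      have hb := rank_bound (PD (Real.pi : ℂ) 1) (one_mem_PD _ _)
        (fun i => ((Real.log ((![m, n] : Fin 2 → ℕ) i) : ℝ) : ℂ)) (fun i => by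
          rw [log_cast, Complex.exp_log (hne i)]
          exact isAlgebraic_natCast _) hli2 ![z, w] (fun i => (hzz i).1) (fun i => (hzz i).2.1)
          (fun i => by
            apply Lt_log
            have h6 := (hzz i).2.2
            rw [Complex.cpow_def_of_ne_zero (hne i)] at h6
            rw [log_cast, mul_comm]
            exact h6)
      have h1 := mul_pred_le (finrank_PD_le (Real.pi : ℂ) 1)
      have h2 := two_le pi_tr pi_mem_Lt le_rfl
      omega)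
  refine ⟨g, hg, fun n hn hng α β hα hβ hβ0 hcon => ?_⟩
  have k1 : α + β * (Real.pi : ℂ) ∈ PD (Real.pi : ℂ) 1 := by
    have h1 := mem_PD (Real.pi : ℂ) (D := 1)
      (p := C (⟨β, mem_QB.mpr hβ⟩ : QB) * X + C (⟨α, mem_QB.mpr hα⟩ : QB)) (by compute_degree)
    simp only [map_add, map_mul, aeval_C, aeval_X, IntermediateField.algebraMap_apply] at h1
    rwa [add_comm] at h1
  have k2 : Transcendental ℚ (α + β * (Real.pi : ℂ)) := by
    intro h
    apply pi_tr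
    have h2 : (Real.pi : ℂ) = (α + β * (Real.pi : ℂ) - α) * β⁻¹ := by
      rw [add_sub_cancel_left, mul_comm β, mul_assoc, mul_inv_cancel₀ hβ0, mul_one]
    rw [h2]
    exact (h.sub hα).mul hβ.inv
  obtain ⟨k, hk⟩ := hg2 n ⟨hn, α + β * (Real.pi : ℂ), k1, k2, hcon⟩
  exact hng k hk

theorem part_E : BothPowers := by
  intro N
  have h1 := part_C1 1 N le_rfl
  have h2 := part_C2 1 N
  have hcast : ∀ (n : ℕ) (x : ℝ), IsAlgebraic ℚ ((n : ℝ) ^ x) → IsAlgebraic ℚ ((n : ℂ) ^ (x : ℂ)) := by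
    intro n x hx
    have h3 := hx.algebraMap (A := ℂ)
    have h4 : (algebraMap ℝ ℂ) ((n : ℝ) ^ x) = (n : ℂ) ^ (x : ℂ) := by
      have := Complex.ofReal_cpow (Nat.cast_nonneg n : (0 : ℝ) ≤ n) x
      rw [Complex.ofReal_natCast] at this
      exact this
    rwa [h4] at h3
  have hX : ∀ t : ℂ, t ∈ PolynomialExponents t 1 := fun t => ⟨X, by simp, by simp, by simp⟩
  have hsub : {n : ℕ | 2 ≤ n ∧ n ≤ N ∧ ¬ (Transcendental ℚ ((n : ℝ) ^ Real.pi) ∧
      Transcendental ℚ ((n : ℝ) ^ Real.exp 1))} ⊆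
      Bases (PolynomialExponents (Real.exp 1 : ℂ) 1) N ∪
        Bases (PolynomialExponents (Real.pi : ℂ) 1) N := by
    rintro n ⟨hn1, hn2, hn3⟩
    rw [not_and_or, Transcendental, Transcendental, not_not, not_not] at hn3
    rcases hn3 with h | h
    · right
      exact ⟨hn1, hn2, _, hX _, hcast n _ h⟩
    · left
      exact ⟨hn1, hn2, _, hX _, hcast n _ h⟩
  calc _ ≤ (Bases (PolynomialExponents (Real.exp 1 : ℂ) 1) N ∪
        Bases (PolynomialExponents (Real.pi : ℂ) 1) N).ncard :=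
        Set.ncard_le_ncard hsub ((bases_finite _ N).union (bases_finite _ N))
    _ ≤ _ := Set.ncard_union_le _ _
    _ ≤ (Nat.log 2 N + 1) ^ (1 ^ 2 + 1) + (Nat.log 2 N + 1) ^ (1 ^ 2 + 1 - 1) :=
        Nat.add_le_add h2 h1
    _ = (Nat.log 2 N + 1) ^ 2 + Nat.log 2 N + 1 := by norm_num; ring

/-- **Main result**: (A), (B), (C), (D), (E). -/
theorem result : IndependentLogs ∧ ManyExponents ∧ PolynomialsInPiAndE ∧ OneBase ∧ BothPowers :=
  ⟨part_A, part_B, ⟨part_C1, fun D N _ => part_C2 D N, part_C3⟩, part_D, part_E⟩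

end Pool.Agent.Results.MP_ee2255_nt.FewBases
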