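import Pool.Agent.TH456.PW.Poly3
import Pool.Agent.TH456.PW.Multi
import Pool.Agent.TH456.PW.PiE

/-!
# `n ^ π` and `n ^ e` satisfy no common approximate algebraic relation for almost all integers `n`
-/

set_option autoImplicit false

namespace Pool.Agent.Results.MP_ee2255_nt.JointRelations

/-- The integers `x` in `[N, 2N]` for which some nonzero polynomial `P` in three variables with integer coefficients of
absolute value at most `N ^ A`, of degrees at most `d0`, `d1`, `d2` in the variables, satisfies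
`|P(π, log x, x ^ π)| ≤ N ^ (-B)` or `|P(e, log x, x ^ e)| ≤ N ^ (-B)`. -/
def RelatedOne (d0 d1 d2 N : ℕ) (A B : ℝ) : Set ℕ :=
  {x | N ≤ x ∧ x ≤ 2 * N ∧ ∃ P : MvPolynomial (Fin 3) ℤ, P ≠ 0 ∧
    P.degreeOf 0 ≤ d0 ∧ P.degreeOf 1 ≤ d1 ∧ P.degreeOf 2 ≤ d2 ∧
    (∀ u, |((P.coeff u : ℤ) : ℝ)| ≤ (N : ℝ) ^ A) ∧
    (|MvPolynomial.aeval ![Real.pi, Real.log x, (x : ℝ) ^ Real.pi] P| ≤ (N : ℝ) ^ (-B) ∨
      |MvPolynomial.aeval ![Real.exp 1, Real.log x, (x : ℝ) ^ Real.exp 1] P| ≤ (N : ℝ) ^ (-B))}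

/-- The integers `x` in `[N, 2N]` for which `x ^ π` or `x ^ e` has distance at most `N ^ (-B)` to some rational number
with denominator at most `N ^ A`. -/
def NearRational (N : ℕ) (A B : ℝ) : Set ℕ :=
  {x | N ≤ x ∧ x ≤ 2 * N ∧ ∃ (p : ℤ) (q : ℕ), 1 ≤ q ∧ (q : ℝ) ≤ (N : ℝ) ^ A ∧
    (|(x : ℝ) ^ Real.pi - p / q| ≤ (N : ℝ) ^ (-B) ∨ |(x : ℝ) ^ Real.exp 1 - p / q| ≤ (N : ℝ) ^ (-B))}

theorem irr_pi : Irrational Real.pi := irrational_pi

theorem irr_e : Irrational (Real.exp 1) := by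
  have h := Pool.Agent.TH456.TM.transcendental_of_measT Pool.Agent.TH456.TM.measT_e
  have h2 : Transcendental ℤ (Real.exp 1) := by
    intro halg
    apply h
    exact halg.algebraMap
  have h3 : Transcendental ℚ (Real.exp 1) := fun hq => h2 ((IsFractionRing.isAlgebraic_iff ℤ ℚ ℝ).2 hq)
  exact h3.irrational

theorem mainOne (d0 d1 d2 : ℕ) (A β : ℝ) (hA : 0 ≤ A)
    (hβ : 1 - 1 / (((d0 : ℝ) + 1) * (d1 + 1) * (d2 + 1) + 1) < β) :
    ∃ B C : ℝ, ∀ N : ℕ, 1 ≤ N → (RelatedOne d0 d1 d2 N A B).Finite ∧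
      ((RelatedOne d0 d1 d2 N A B).ncard : ℝ) ≤ C * (N : ℝ) ^ β := by
  obtain ⟨B1, C1, h1⟩ := Pool.Agent.TH456.PW.exc_bound Real.pi Real.pi
    Pool.Agent.TH818.AP.goodConst_pi Real.pi_pos.le irr_pi d0 d1 d2 A β hA hβ
  obtain ⟨B2, C2, h2⟩ := Pool.Agent.TH456.PW.exc_bound (Real.exp 1) (Real.exp 1)
    (Pool.Agent.TH456.PW.goodConst Pool.Agent.TH456.TM.measT_e) (Real.exp_pos 1).le irr_e d0 d1 d2 A β hA hβ
  refine ⟨max B1 B2, C1 + C2, fun N hN => ?_⟩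
  have hfin : (RelatedOne d0 d1 d2 N A (max B1 B2)).Finite :=
    (Set.finite_Icc N (2 * N)).subset fun _ hx => ⟨hx.1, hx.2.1⟩
  refine ⟨hfin, ?_⟩
  have hsub : RelatedOne d0 d1 d2 N A (max B1 B2) ⊆
      Pool.Agent.TH456.PW.Exc Real.pi Real.pi d0 d1 d2 N A (max B1 B2) ∪
      Pool.Agent.TH456.PW.Exc (Real.exp 1) (Real.exp 1) d0 d1 d2 N A (max B1 B2) := by
    rintro x ⟨hx1, hx2, P, hP, h0, h1, h2, hc, h | h⟩
    · exact Or.inl ⟨hx1, hx2, P, hP, h0, h1, h2, hc, h⟩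
    · exact Or.inr ⟨hx1, hx2, P, hP, h0, h1, h2, hc, h⟩
  have h3 := Set.ncard_le_ncard hsub ((Pool.Agent.TH456.PW.Exc_fin _ _ _ _ _ _ _ _).union
    (Pool.Agent.TH456.PW.Exc_fin _ _ _ _ _ _ _ _))
  have h4 := Set.ncard_union_le (Pool.Agent.TH456.PW.Exc Real.pi Real.pi d0 d1 d2 N A (max B1 B2))
    (Pool.Agent.TH456.PW.Exc (Real.exp 1) (Real.exp 1) d0 d1 d2 N A (max B1 B2))
  have h5 := h1 _ (le_max_left B1 B2) N hN
  have h6 := h2 _ (le_max_right B1 B2) N hN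
  have h7 : ((RelatedOne d0 d1 d2 N A (max B1 B2)).ncard : ℝ) ≤
      ((Pool.Agent.TH456.PW.Exc Real.pi Real.pi d0 d1 d2 N A (max B1 B2)).ncard : ℝ) +
      ((Pool.Agent.TH456.PW.Exc (Real.exp 1) (Real.exp 1) d0 d1 d2 N A (max B1 B2)).ncard : ℝ) := by
    exact_mod_cast h3.trans h4
  rw [add_mul]
  linarith

theorem near (A β : ℝ) (hA : 0 ≤ A) (hβ : 2 / 3 < β) :
    ∃ B C : ℝ, ∀ N : ℕ, 1 ≤ N → (NearRational N A B).Finite ∧
      ((NearRational N A B).ncard : ℝ) ≤ C * (N : ℝ) ^ β := by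
  -- numerators are at most `N ^ (A + 5)`
  obtain ⟨B, C, h⟩ := mainOne 0 0 1 (A + 10) β (by linarith) (by norm_num; linarith)
  refine ⟨|B| + A, C + 3, fun N hN => ?_⟩
  have hfin : (NearRational N A (|B| + A)).Finite :=
    (Set.finite_Icc N (2 * N)).subset fun _ hx => ⟨hx.1, hx.2.1⟩
  refine ⟨hfin, ?_⟩
  have hN1 : (1 : ℝ) ≤ N := by exact_mod_cast hN
  have hNp : (0 : ℝ) < N := by linarith
  have hNβ : 1 ≤ (N : ℝ) ^ β := Real.one_le_rpow hN1 (by linarith)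
  obtain ⟨hf, hle⟩ := h N hN
  rcases Nat.lt_or_ge N 2 with hN2 | hN2
  · have hN' : N = 1 := by omega
    subst hN'
    have h1 : NearRational 1 A (|B| + A) ⊆ Set.Icc 1 2 := fun x hx => ⟨hx.1, by simpa using hx.2.1⟩
    have h2 := Set.ncard_le_ncard h1 (Set.finite_Icc _ _)
    have h3 : (Set.Icc 1 2 : Set ℕ).ncard = 2 := by
      rw [← Finset.coe_Icc, Set.ncard_coe_finset, Nat.card_Icc]
    rw [h3] at h2
    have hC : 0 ≤ C := by
      have : (0 : ℝ) ≤ ((RelatedOne 0 0 1 1 (A + 10) B).ncard : ℝ) := Nat.cast_nonneg _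
      simp only [Nat.cast_one, Real.one_rpow, mul_one] at hle
      linarith
    have h4 : ((NearRational 1 A (|B| + A)).ncard : ℝ) ≤ 2 := by exact_mod_cast h2
    simp only [Nat.cast_one, Real.one_rpow, mul_one]
    linarith
  have hN2' : (2 : ℝ) ≤ N := by exact_mod_cast hN2
  have hsub : NearRational N A (|B| + A) ⊆ RelatedOne 0 0 1 N (A + 10) B := by
    rintro x ⟨hx1, hx2, p, q, hq, hqA, hpq⟩
    have hx0 : (N : ℝ) ≤ x := by exact_mod_cast hx1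
    have hx0' : (x : ℝ) ≤ 2 * N := by exact_mod_cast hx2
    have hx1' : (1 : ℝ) ≤ x := hN1.trans hx0
    have hq0 : (0 : ℝ) < q := by exact_mod_cast (by omega : 0 < q)
    -- the general step for an exponent `θ ≤ 4`
    have key : ∀ γ θ : ℝ, θ ≤ 4 → |(x : ℝ) ^ θ - p / q| ≤ (N : ℝ) ^ (-(|B| + A)) →
        (∀ u, |(((MvPolynomial.C (q : ℤ) * MvPolynomial.X 2 - MvPolynomial.C p :
          MvPolynomial (Fin 3) ℤ).coeff u : ℤ) : ℝ)| ≤ (N : ℝ) ^ (A + 10)) ∧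
        |MvPolynomial.aeval ![γ, Real.log x, (x : ℝ) ^ θ] (MvPolynomial.C (q : ℤ) * MvPolynomial.X 2 -
          MvPolynomial.C p : MvPolynomial (Fin 3) ℤ)| ≤ (N : ℝ) ^ (-B) := by
      intro γ θ hθ hh
      have hpow : (x : ℝ) ^ θ ≤ (N : ℝ) ^ (8 : ℝ) := by
        calc (x : ℝ) ^ θ ≤ (x : ℝ) ^ (4 : ℝ) := Real.rpow_le_rpow_of_exponent_le hx1' hθ
          _ ≤ ((N : ℝ) ^ (2 : ℝ)) ^ (4 : ℝ) := by
            refine Real.rpow_le_rpow (by linarith) ?_ (by norm_num)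
            rw [Real.rpow_two]
            nlinarith
          _ = (N : ℝ) ^ (8 : ℝ) := by
            rw [← Real.rpow_mul hNp.le]
            norm_num
      have h1 : (N : ℝ) ^ (-(|B| + A)) ≤ 1 := by
        apply Real.rpow_le_one_of_one_le_of_nonpos hN1
        have := abs_nonneg B
        linarith
      have hA1 : 1 ≤ (N : ℝ) ^ A := Real.one_le_rpow hN1 hA
      have h8 : 1 ≤ (N : ℝ) ^ (8 : ℝ) := Real.one_le_rpow hN1 (by norm_num)
      have hxθ : 0 ≤ (x : ℝ) ^ θ := by positivity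
      have hp : |(p : ℝ)| ≤ (N : ℝ) ^ (A + 10) := by
        have h2 : |(p : ℝ) / q| ≤ (N : ℝ) ^ (8 : ℝ) + 1 := by
          have h3 : (p : ℝ) / q = (x : ℝ) ^ θ - ((x : ℝ) ^ θ - p / q) := by ring
          rw [h3]
          refine (abs_sub _ _).trans ?_
          rw [abs_of_nonneg hxθ]
          linarith
        rw [abs_div, Nat.abs_cast, div_le_iff₀ hq0] at h2
        have h10 : (N : ℝ) ^ (A + 10) = (N : ℝ) ^ A * ((N : ℝ) ^ (8 : ℝ) * (N : ℝ) ^ (2 : ℝ)) := by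
          rw [← Real.rpow_add hNp, ← Real.rpow_add hNp]
          norm_num
        rw [h10]
        calc |(p : ℝ)| ≤ ((N : ℝ) ^ (8 : ℝ) + 1) * q := h2
          _ ≤ ((N : ℝ) ^ (8 : ℝ) + (N : ℝ) ^ (8 : ℝ)) * (N : ℝ) ^ A := by gcongr
          _ = (N : ℝ) ^ A * ((N : ℝ) ^ (8 : ℝ) * 2) := by ring
          _ ≤ (N : ℝ) ^ A * ((N : ℝ) ^ (8 : ℝ) * (N : ℝ) ^ (2 : ℝ)) := by
            gcongr
            rw [Real.rpow_two]
            nlinarith
      have hqA' : (q : ℝ) ≤ (N : ℝ) ^ (A + 10) :=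
        hqA.trans (Real.rpow_le_rpow_of_exponent_le hN1 (by linarith))
      constructor
      · intro u
        rw [MvPolynomial.coeff_sub, MvPolynomial.coeff_C_mul, MvPolynomial.coeff_C, MvPolynomial.coeff_X]
        split_ifs with h2 h3 h3
        · exfalso
          rw [← h3] at h2
          have := DFunLike.congr_fun h2 2
          simp at this
        · simpa using hqA'
        · simpa using hp
        · simp only [mul_zero, sub_zero, Int.cast_zero, abs_zero]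
          positivity
      · have h2 : MvPolynomial.aeval ![γ, Real.log x, (x : ℝ) ^ θ] (MvPolynomial.C (q : ℤ) * MvPolynomial.X 2 -
          MvPolynomial.C p : MvPolynomial (Fin 3) ℤ) = q * ((x : ℝ) ^ θ - p / q) := by
          simp only [map_sub, map_mul, MvPolynomial.aeval_C, MvPolynomial.aeval_X, Matrix.cons_val]
          field_simp
          simp
          ring
        rw [h2, abs_mul, Nat.abs_cast]
        calc (q : ℝ) * |(x : ℝ) ^ θ - p / q| ≤ (N : ℝ) ^ A * (N : ℝ) ^ (-(|B| + A)) := by gcongr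
          _ = (N : ℝ) ^ (-|B|) := by
            rw [← Real.rpow_add hNp]
            congr 1
            ring
          _ ≤ (N : ℝ) ^ (-B) := by
            apply Real.rpow_le_rpow_of_exponent_le hN1
            have := le_abs_self B
            linarith
    have hP0 : (MvPolynomial.C (q : ℤ) * MvPolynomial.X 2 - MvPolynomial.C p : MvPolynomial (Fin 3) ℤ) ≠ 0 := by
      intro h0
      have hne : ¬ (0 : Fin 3 →₀ ℕ) = Finsupp.single 2 1 := by
        intro h2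
        have := DFunLike.congr_fun h2 2
        simp at this
      have h1 := congrArg (MvPolynomial.coeff (Finsupp.single 2 1)) h0
      rw [MvPolynomial.coeff_sub, MvPolynomial.coeff_C_mul, MvPolynomial.coeff_C, MvPolynomial.coeff_X,
        if_neg hne, if_pos rfl, MvPolynomial.coeff_zero] at h1
      omega
    have hd : ∀ i : Fin 3, (MvPolynomial.C (q : ℤ) * MvPolynomial.X 2 - MvPolynomial.C p :
        MvPolynomial (Fin 3) ℤ).degreeOf i ≤ if i = 2 then 1 else 0 := by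
      intro i
      refine (MvPolynomial.degreeOf_sub_le _ _ _).trans ?_
      rw [MvPolynomial.degreeOf_C]
      refine max_le ?_ (Nat.zero_le _)
      refine (MvPolynomial.degreeOf_C_mul_le _ _ _).trans ?_
      rw [MvPolynomial.degreeOf_X]
    rcases hpq with hpi | he
    · obtain ⟨k1, k2⟩ := key Real.pi Real.pi Real.pi_le_four hpi
      exact ⟨hx1, hx2, _, hP0, by simpa using hd 0, by simpa using hd 1, by simpa using hd 2, k1, Or.inl k2⟩
    · obtain ⟨k1, k2⟩ := key (Real.exp 1) (Real.exp 1) (by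
        have := Real.exp_one_lt_d9
        linarith) he
      exact ⟨hx1, hx2, _, hP0, by simpa using hd 0, by simpa using hd 1, by simpa using hd 2, k1, Or.inr k2⟩
  have h1 := Set.ncard_le_ncard hsub hf
  calc ((NearRational N A (|B| + A)).ncard : ℝ) ≤ ((RelatedOne 0 0 1 N (A + 10) B).ncard : ℝ) := by exact_mod_cast h1
    _ ≤ C * (N : ℝ) ^ β := hle
    _ ≤ (C + 3) * (N : ℝ) ^ β := by
      refine mul_le_mul_of_nonneg_right ?_ (by linarith)
      linarith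


/-- The integers `x` in `[N, 2N]` for which there are integers `c_(i,j,k,l)`, `0 ≤ i ≤ d0`, `0 ≤ j ≤ d1`, `0 ≤ k ≤ d2`,
`0 ≤ l ≤ d3`, not all zero and of absolute value at most `N ^ A`, such that, for `γ = π` or for `γ = e`, the sum of the
numbers `c_(i,j,k,l) γ ^ i (log x) ^ j (x ^ π) ^ k (x ^ e) ^ l` has absolute value at most `N ^ (-B)`. -/
def Related (d0 d1 d2 d3 N : ℕ) (A B : ℝ) : Set ℕ :=
  {x | N ≤ x ∧ x ≤ 2 * N ∧ ∃ c : Fin (d0 + 1) × Fin (d1 + 1) × Fin (d2 + 1) × Fin (d3 + 1) → ℤ, c ≠ 0 ∧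
    (∀ u, |(c u : ℝ)| ≤ (N : ℝ) ^ A) ∧ ∃ γ : ℝ, (γ = Real.pi ∨ γ = Real.exp 1) ∧
    |∑ u, (c u : ℝ) * (γ ^ (u.1 : ℕ) * Real.log x ^ (u.2.1 : ℕ) * ((x : ℝ) ^ Real.pi) ^ (u.2.2.1 : ℕ) *
      ((x : ℝ) ^ Real.exp 1) ^ (u.2.2.2 : ℕ))| ≤ (N : ℝ) ^ (-B)}

/-- The integers `x` in `[N, 2N]` for which there are integers `a`, `b`, `c`, not all zero and of absolute value at most
`N ^ A`, with `|a + b x ^ π + c x ^ e| ≤ N ^ (-B)`. -/
def LinearlyRelated (N : ℕ) (A B : ℝ) : Set ℕ :=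
  {x | N ≤ x ∧ x ≤ 2 * N ∧ ∃ a b c : ℤ, ¬ (a = 0 ∧ b = 0 ∧ c = 0) ∧
    |(a : ℝ)| ≤ (N : ℝ) ^ A ∧ |(b : ℝ)| ≤ (N : ℝ) ^ A ∧ |(c : ℝ)| ≤ (N : ℝ) ^ A ∧
    |(a : ℝ) + b * (x : ℝ) ^ Real.pi + c * (x : ℝ) ^ Real.exp 1| ≤ (N : ℝ) ^ (-B)}

open Pool.Agent.TH456.PW

/-- the exponents -/
noncomputable def φ (d2 d3 : ℕ) (i : Fin (d2 + 1) × Fin (d3 + 1)) : ℝ :=
  (i.1 : ℕ) * Real.pi + (i.2 : ℕ) * Real.exp 1

theorem φ_nonneg (d2 d3 : ℕ) (i : Fin (d2 + 1) × Fin (d3 + 1)) : 0 ≤ φ d2 d3 i := by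
  have := Real.pi_pos
  have := Real.exp_pos 1
  unfold φ
  positivity

theorem φ_inj (d2 d3 : ℕ) (h2 : d2 ≤ 100) (h3 : d3 ≤ 100) (i i' : Fin (d2 + 1) × Fin (d3 + 1)) (j j' : ℕ)
    (h : φ d2 d3 i + j = φ d2 d3 i' + j') : i = i' := by
  have hk1 := i.1.isLt
  have hk2 := i'.1.isLt
  have hl1 := i.2.isLt
  have hl2 := i'.2.isLt
  have h4 := pi_e (((i.1 : ℕ) : ℤ) - (i'.1 : ℕ)) (((i.2 : ℕ) : ℤ) - (i'.2 : ℕ)) ((j' : ℤ) - j)
    (by rw [abs_le]; constructor <;> omega) (by rw [abs_le]; constructor <;> omega) (by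
      unfold φ at h
      push_cast
      linarith)
  exact Prod.ext (Fin.ext (by omega)) (Fin.ext (by omega))

theorem main (d0 d1 d2 d3 : ℕ) (h2 : d2 ≤ 100) (h3 : d3 ≤ 100) (A β : ℝ) (hA : 0 ≤ A)
    (hβ : 1 - 1 / (((d0 : ℝ) + 1) * (d1 + 1) * (d2 + 1) * (d3 + 1) + 1) < β) :
    ∃ B C : ℝ, ∀ N : ℕ, 1 ≤ N → (Related d0 d1 d2 d3 N A B).Finite ∧
      ((Related d0 d1 d2 d3 N A B).ncard : ℝ) ≤ C * (N : ℝ) ^ β := by
  have hβ' : 1 - 1 / (((d0 : ℝ) + 1) * (d1 + 1) * Fintype.card (Fin (d2 + 1) × Fin (d3 + 1)) + 1) < β := by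
    refine lt_of_le_of_lt (le_of_eq ?_) hβ
    simp only [Fintype.card_prod, Fintype.card_fin]
    push_cast
    ring
  obtain ⟨B1, C1, hC1, hb1⟩ := excM_bound Real.pi (φ d2 d3) Pool.Agent.TH818.AP.goodConst_pi (φ_nonneg d2 d3)
    (φ_inj d2 d3 h2 h3) d0 d1 A β hA hβ'
  obtain ⟨B2, C2, hC2, hb2⟩ := excM_bound (Real.exp 1) (φ d2 d3) (goodConst Pool.Agent.TH456.TM.measT_e)
    (φ_nonneg d2 d3) (φ_inj d2 d3 h2 h3) d0 d1 A β hA hβ'
  refine ⟨max B1 B2, C1 + C2, fun N hN => ?_⟩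
  have hfin : (Related d0 d1 d2 d3 N A (max B1 B2)).Finite :=
    (Set.finite_Icc N (2 * N)).subset fun _ hx => ⟨hx.1, hx.2.1⟩
  refine ⟨hfin, ?_⟩
  have hsub : Related d0 d1 d2 d3 N A (max B1 B2) ⊆
      ExcM Real.pi (φ d2 d3) d0 d1 N A (max B1 B2) ∪ ExcM (Real.exp 1) (φ d2 d3) d0 d1 N A (max B1 B2) := by
    rintro x ⟨hx1, hx2, c, hc0, hc, γ, hγ, hs⟩
    have hN1 : (1 : ℝ) ≤ N := by exact_mod_cast hN
    have hxp : (0 : ℝ) < x := by
      have : (N : ℝ) ≤ x := by exact_mod_cast hx1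
      linarith
    have hpow : ∀ u : Fin (d0 + 1) × Fin (d1 + 1) × Fin (d2 + 1) × Fin (d3 + 1),
        (x : ℝ) ^ (φ d2 d3 u.2.2) = ((x : ℝ) ^ Real.pi) ^ (u.2.2.1 : ℕ) * ((x : ℝ) ^ Real.exp 1) ^ (u.2.2.2 : ℕ) := by
      intro u
      unfold φ
      rw [Real.rpow_add hxp, mul_comm _ Real.pi, mul_comm _ (Real.exp 1), Real.rpow_mul hxp.le, Real.rpow_mul hxp.le,
        Real.rpow_natCast, Real.rpow_natCast]
    have hs' : |∑ u : Fin (d0 + 1) × Fin (d1 + 1) × Fin (d2 + 1) × Fin (d3 + 1),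
        (c u : ℝ) * (γ ^ (u.1 : ℕ) * Real.log x ^ (u.2.1 : ℕ) * (x : ℝ) ^ (φ d2 d3 u.2.2))| ≤
        (N : ℝ) ^ (-(max B1 B2)) := by
      refine le_trans (le_of_eq ?_) hs
      congr 1
      refine Finset.sum_congr rfl fun u _ => ?_
      rw [hpow u]
      ring
    rcases hγ with rfl | rfl
    · exact Or.inl ⟨hx1, hx2, c, hc0, hc, hs'⟩
    · exact Or.inr ⟨hx1, hx2, c, hc0, hc, hs'⟩
  have h3 := Set.ncard_le_ncard hsub ((ExcM_fin _ _ _ _ _ _ _).union (ExcM_fin _ _ _ _ _ _ _))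
  have h4 := Set.ncard_union_le (ExcM Real.pi (φ d2 d3) d0 d1 N A (max B1 B2))
    (ExcM (Real.exp 1) (φ d2 d3) d0 d1 N A (max B1 B2))
  have h5 := hb1 _ (le_max_left B1 B2) N hN
  have h6 := hb2 _ (le_max_right B1 B2) N hN
  have h7 : ((Related d0 d1 d2 d3 N A (max B1 B2)).ncard : ℝ) ≤
      ((ExcM Real.pi (φ d2 d3) d0 d1 N A (max B1 B2)).ncard : ℝ) +
      ((ExcM (Real.exp 1) (φ d2 d3) d0 d1 N A (max B1 B2)).ncard : ℝ) := by
    exact_mod_cast h3.trans h4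
  rw [add_mul]
  linarith

/-- the exponents `0`, `π`, `e` -/
noncomputable def ψ : Fin 3 → ℝ := ![0, Real.pi, Real.exp 1]

theorem ψ_nonneg (i : Fin 3) : 0 ≤ ψ i := by
  have := Real.pi_pos
  have := Real.exp_pos 1
  fin_cases i <;> simp [ψ] <;> positivity

theorem ψ_inj (i i' : Fin 3) (j j' : ℕ) (h : ψ i + j = ψ i' + j') : i = i' := by
  have h1 : ∀ i : Fin 3, ψ i = φ 1 1 (![(0, 0), (1, 0), (0, 1)] i) := by
    intro i
    fin_cases i <;> simp [ψ, φ]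
  rw [h1, h1] at h
  have h2 := φ_inj 1 1 (by norm_num) (by norm_num) _ _ j j' h
  have h3 : Function.Injective (![(0, 0), (1, 0), (0, 1)] : Fin 3 → Fin (1 + 1) × Fin (1 + 1)) := by decide
  exact h3 h2

theorem linear (A β : ℝ) (hA : 0 ≤ A) (hβ : 3 / 4 < β) :
    ∃ B C : ℝ, ∀ N : ℕ, 1 ≤ N → (LinearlyRelated N A B).Finite ∧
      ((LinearlyRelated N A B).ncard : ℝ) ≤ C * (N : ℝ) ^ β := by
  obtain ⟨B, C, hC, hb⟩ := excM_bound Real.pi ψ Pool.Agent.TH818.AP.goodConst_pi ψ_nonneg ψ_inj 0 0 A β hA (by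
    simp only [Fintype.card_fin]
    norm_num
    linarith)
  refine ⟨B, C, fun N hN => ?_⟩
  have hfin : (LinearlyRelated N A B).Finite :=
    (Set.finite_Icc N (2 * N)).subset fun _ hx => ⟨hx.1, hx.2.1⟩
  refine ⟨hfin, ?_⟩
  have hsub : LinearlyRelated N A B ⊆ ExcM Real.pi ψ 0 0 N A B := by
    rintro x ⟨hx1, hx2, a, b, c, h0, ha, hb, hc, hs⟩
    refine ⟨hx1, hx2, fun u => ![a, b, c] u.2.2, ?_, ?_, ?_⟩
    · intro hcon
      apply h0
      refine ⟨?_, ?_, ?_⟩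
      · simpa using congrFun hcon (0, 0, 0)
      · simpa using congrFun hcon (0, 0, 1)
      · simpa using congrFun hcon (0, 0, 2)
    · rintro ⟨u0, u1, u2⟩
      fin_cases u2
      · simpa using ha
      · simpa using hb
      · simpa using hc
    · refine le_trans (le_of_eq ?_) hs
      congr 1
      rw [Fintype.sum_prod_type, Fin.sum_univ_one, Fintype.sum_prod_type, Fin.sum_univ_one, Fin.sum_univ_three]
      simp [ψ]
  have h3 := Set.ncard_le_ncard hsub (ExcM_fin _ _ _ _ _ _ _)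
  calc ((LinearlyRelated N A B).ncard : ℝ) ≤ ((ExcM Real.pi ψ 0 0 N A B).ncard : ℝ) := by exact_mod_cast h3
    _ ≤ C * (N : ℝ) ^ β := hb B le_rfl N hN

/-- Let `A ≥ 0`.
(1) Let `d0, d1, d2` be natural numbers and `β > 1 - 1 / ((d0 + 1) (d1 + 1) (d2 + 1) + 1)`. There are `B`, `C` such that
for every `N ≥ 1`, for all but at most `C N ^ β` of the integers `x` in `[N, 2N]`, every nonzero integer polynomial `P` in
three variables of degrees at most `d0`, `d1`, `d2` with coefficients of absolute value at most `N ^ A` satisfies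
`|P(π, log x, x ^ π)| > N ^ (-B)` and `|P(e, log x, x ^ e)| > N ^ (-B)`.
(2) Let `d0, d1, d2, d3` be natural numbers with `d2, d3 ≤ 100` and
`β > 1 - 1 / ((d0 + 1) (d1 + 1) (d2 + 1) (d3 + 1) + 1)`. There are `B`, `C` such that for every `N ≥ 1`, for all but at
most `C N ^ β` of the integers `x` in `[N, 2N]`, every nonzero integer polynomial `P` in four variables of degrees at most
`d0`, `d1`, `d2`, `d3` with coefficients of absolute value at most `N ^ A` satisfies `|P(π, log x, x ^ π, x ^ e)| > N ^ (-B)`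
and `|P(e, log x, x ^ π, x ^ e)| > N ^ (-B)`.
(3) Let `β > 2 / 3`. There are `B`, `C` such that for every `N ≥ 1`, for all but at most `C N ^ β` of the integers `x` in
`[N, 2N]`, both `x ^ π` and `x ^ e` have distance more than `N ^ (-B)` to all rationals of denominator at most
`N ^ A`.
(4) Let `β > 3 / 4`. There are `B`, `C` such that for every `N ≥ 1`, for all but at most `C N ^ β` of the integers `x` in
`[N, 2N]`, `|a + b x ^ π + c x ^ e| > N ^ (-B)` for all integers `a`, `b`, `c`, not all zero and of absolute value at most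
`N ^ A`. -/
theorem result (A : ℝ) (hA : 0 ≤ A) :
    (∀ (d0 d1 d2 : ℕ) (β : ℝ), 1 - 1 / (((d0 : ℝ) + 1) * (d1 + 1) * (d2 + 1) + 1) < β →
      ∃ B C : ℝ, ∀ N : ℕ, 1 ≤ N → (RelatedOne d0 d1 d2 N A B).Finite ∧
        ((RelatedOne d0 d1 d2 N A B).ncard : ℝ) ≤ C * (N : ℝ) ^ β) ∧
    (∀ (d0 d1 d2 d3 : ℕ) (β : ℝ), d2 ≤ 100 → d3 ≤ 100 →
      1 - 1 / (((d0 : ℝ) + 1) * (d1 + 1) * (d2 + 1) * (d3 + 1) + 1) < β →
      ∃ B C : ℝ, ∀ N : ℕ, 1 ≤ N → (Related d0 d1 d2 d3 N A B).Finite ∧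
        ((Related d0 d1 d2 d3 N A B).ncard : ℝ) ≤ C * (N : ℝ) ^ β) ∧
    (∀ β : ℝ, 2 / 3 < β →
      ∃ B C : ℝ, ∀ N : ℕ, 1 ≤ N → (NearRational N A B).Finite ∧
        ((NearRational N A B).ncard : ℝ) ≤ C * (N : ℝ) ^ β) ∧
    (∀ β : ℝ, 3 / 4 < β →
      ∃ B C : ℝ, ∀ N : ℕ, 1 ≤ N → (LinearlyRelated N A B).Finite ∧
        ((LinearlyRelated N A B).ncard : ℝ) ≤ C * (N : ℝ) ^ β) :=
  ⟨fun d0 d1 d2 β hβ => mainOne d0 d1 d2 A β hA hβ,
    fun d0 d1 d2 d3 β h2 h3 hβ => main d0 d1 d2 d3 h2 h3 A β hA hβ,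
    fun β hβ => near A β hA hβ, fun β hβ => linear A β hA hβ⟩

end Pool.Agent.Results.MP_ee2255_nt.JointRelations
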